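import Mathlib

/-!
# Random simple tensors of high degree: failure for coordinates with an atom at zero

If the law `ν` of the coordinates has an atom at `0`, then as soon as
`d(n) * log n - n * log (1 / ν {0})` tends to infinity (for instance for `d(n) = n`, or for
`d(n) = ⌈c n / log n⌉` with `c > log (1 / ν {0})`), one of the `m = ⌊(1 - ε) n ^ d⌋` random simple
tensors is zero with probability tending to one, so that the smallest singular value is `0`.
-/

set_option autoImplicit false

namespace Pool.Agent.Results.MP_2a72d7_pr.AtomAtZero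

open MeasureTheory ProbabilityTheory Filter Topology

/-- The simple tensor `x_1 ⊗ ... ⊗ x_d` as an element of `ℝ ^ (n ^ d)`. -/
def simpleTensor {d n : ℕ} (x : Fin d → Fin n → ℝ) : (Fin d → Fin n) → ℝ :=
  fun κ => ∏ k, x k (κ k)

/-- The smallest singular value of the matrix with columns `X_1, ..., X_m`: the infimum of
`‖a_1 X_1 + ... + a_m X_m‖` over the unit vectors `a`. -/
noncomputable def sigmaMin {m : ℕ} {ι : Type} [Fintype ι] (X : Fin m → ι → ℝ) : ℝ :=
  sInf {r : ℝ | ∃ a : Fin m → ℝ, ∑ i, a i ^ 2 = 1 ∧ r = Real.sqrt (∑ κ, (∑ i, a i * X i κ) ^ 2)}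

/-- The law of `m` independent `d`-tuples of independent vectors in `ℝ ^ n` with independent
coordinates of law `ν`. -/
noncomputable def factorLaw (m d n : ℕ) (ν : Measure ℝ) : Measure (Fin m → Fin d → Fin n → ℝ) :=
  Measure.pi fun _ => Measure.pi fun _ => Measure.pi fun _ => ν

/-- Mean zero, unit variance, subgaussian norm at most `L`. -/
def Admissible (ν : Measure ℝ) (L : ℝ) : Prop :=
  IsProbabilityMeasure ν ∧ Integrable (fun x => x) ν ∧ ∫ x, x ∂ν = 0 ∧
    Integrable (fun x => x ^ 2) ν ∧ ∫ x, x ^ 2 ∂ν = 1 ∧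
    Integrable (fun x => Real.exp (x ^ 2 / L ^ 2)) ν ∧ ∫ x, Real.exp (x ^ 2 / L ^ 2) ∂ν ≤ 2

theorem sigmaMin_nonneg {m : ℕ} {ι : Type} [Fintype ι] (X : Fin m → ι → ℝ) : 0 ≤ sigmaMin X := by
  apply Real.sInf_nonneg
  rintro r ⟨a, -, rfl⟩
  exact Real.sqrt_nonneg _

theorem sigmaMin_of_zero {m : ℕ} {ι : Type} [Fintype ι] (X : Fin m → ι → ℝ) (i : Fin m)
    (hi : X i = 0) : sigmaMin X = 0 := by
  classical
  apply le_antisymm _ (sigmaMin_nonneg X)
  apply csInf_le
  · refine ⟨0, ?_⟩
    rintro r ⟨a, -, rfl⟩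
    exact Real.sqrt_nonneg _
  · refine ⟨Pi.single i 1, ?_, ?_⟩
    · rw [Finset.sum_eq_single i]
      · simp
      · intro j _ hj
        simp [Pi.single_eq_of_ne hj]
      · intro h
        exact absurd (Finset.mem_univ _) h
    · have : ∀ κ, ∑ j, (Pi.single i (1 : ℝ) : Fin m → ℝ) j * X j κ = 0 := by
        intro κ
        apply Finset.sum_eq_zero
        intro j _
        by_cases hj : j = i
        · subst hj
          simp [hi]
        · simp [Pi.single_eq_of_ne hj]
      simp [this]

theorem simpleTensor_zero {d n : ℕ} (x : Fin d → Fin n → ℝ) (k : Fin d) (hk : x k = 0) :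
    simpleTensor x = 0 := by
  funext κ
  simp only [simpleTensor, Pi.zero_apply]
  exact Finset.prod_eq_zero (Finset.mem_univ k) (by simp [hk])

theorem prob_le {m d n : ℕ} (hd : 0 < d) (ν : Measure ℝ) [IsProbabilityMeasure ν] :
    factorLaw m d n ν {x | 0 < sigmaMin (fun i => simpleTensor (x i))} ≤
      (1 - (ν {0}) ^ n) ^ m := by
  classical
  set k₀ : Fin d := ⟨0, hd⟩
  have hsub : {x : Fin m → Fin d → Fin n → ℝ | 0 < sigmaMin (fun i => simpleTensor (x i))} ⊆
      Set.pi Set.univ (fun _ : Fin m => {y : Fin d → Fin n → ℝ | y k₀ ≠ 0}) := by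
    intro x hx i _ h0
    have hx' : 0 < sigmaMin (fun i => simpleTensor (x i)) := hx
    rw [sigmaMin_of_zero _ i (simpleTensor_zero (x i) k₀ h0)] at hx'
    exact lt_irrefl _ hx'
  refine (measure_mono hsub).trans ?_
  unfold factorLaw
  rw [Measure.pi_pi]
  simp only [Finset.prod_const, Finset.card_univ, Fintype.card_fin]
  apply le_of_eq
  congr 1
  have hpre : {y : Fin d → Fin n → ℝ | y k₀ ≠ 0} =
      (Function.eval k₀ ⁻¹' ({0} : Set (Fin n → ℝ)))ᶜ := by
    ext y
    simp
  have hms : MeasurableSet (Function.eval k₀ ⁻¹' ({0} : Set (Fin n → ℝ)) :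
      Set (Fin d → Fin n → ℝ)) := (measurable_pi_apply k₀) (measurableSet_singleton _)
  rw [hpre, prob_compl_eq_one_sub hms]
  congr 1
  have hmp := measurePreserving_eval (fun _ : Fin d => Measure.pi fun _ : Fin n => ν) k₀
  rw [hmp.measure_preimage (measurableSet_singleton _).nullMeasurableSet]
  have hpt : ({0} : Set (Fin n → ℝ)) = Set.pi Set.univ (fun _ => {0}) := by
    ext y
    simp [funext_iff]
  rw [hpt, Measure.pi_pi]
  simp

/-- The symmetric law with mass `1 / 2` at `0` and `1 / 4` at `√2` and at `-√2`. -/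
noncomputable def lazyLaw : Measure ℝ :=
  (2⁻¹ : ENNReal) • Measure.dirac 0 + (4⁻¹ : ENNReal) • Measure.dirac (Real.sqrt 2) +
    (4⁻¹ : ENNReal) • Measure.dirac (-Real.sqrt 2)

theorem lazy_integrable (f : ℝ → ℝ) : Integrable f lazyLaw := by
  unfold lazyLaw
  have h : ∀ a : ℝ, Integrable f (Measure.dirac a) := fun a => integrable_dirac (by simp)
  exact (((h 0).smul_measure (by simp)).add_measure ((h _).smul_measure (by simp))).add_measure
    ((h _).smul_measure (by simp))

theorem lazy_integral (f : ℝ → ℝ) :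
    ∫ x, f x ∂lazyLaw = f 0 / 2 + f (Real.sqrt 2) / 4 + f (-Real.sqrt 2) / 4 := by
  have h : ∀ a : ℝ, Integrable f (Measure.dirac a) := fun a => integrable_dirac (by simp)
  unfold lazyLaw
  rw [integral_add_measure (((h 0).smul_measure (by simp)).add_measure
      ((h _).smul_measure (by simp))) ((h _).smul_measure (by simp)),
    integral_add_measure ((h 0).smul_measure (by simp)) ((h _).smul_measure (by simp))]
  simp only [integral_smul_measure, integral_dirac, ENNReal.toReal_inv, smul_eq_mul]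
  simp
  ring

theorem lazy_prob : IsProbabilityMeasure lazyLaw := by
  constructor
  unfold lazyLaw
  simp only [Measure.coe_add, Measure.coe_smul, Pi.add_apply, Pi.smul_apply, measure_univ,
    smul_eq_mul, mul_one]
  rw [← ENNReal.toReal_eq_one_iff]
  rw [ENNReal.toReal_add (by simp) (by simp), ENNReal.toReal_add (by simp) (by simp)]
  simp
  norm_num

theorem lazy_zero : lazyLaw {0} = 2⁻¹ := by
  unfold lazyLaw
  have h2 : Real.sqrt 2 ≠ 0 := by positivity
  simp [h2]

theorem lazy_admissible : Admissible lazyLaw 2 := by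
  refine ⟨lazy_prob, lazy_integrable _, ?_, lazy_integrable _, ?_, lazy_integrable _, ?_⟩
  · rw [lazy_integral]; ring
  · rw [lazy_integral]
    have : Real.sqrt 2 ^ 2 = 2 := Real.sq_sqrt (by norm_num)
    rw [neg_sq, this]; norm_num
  · rw [lazy_integral]
    have : Real.sqrt 2 ^ 2 = 2 := Real.sq_sqrt (by norm_num)
    rw [neg_sq, this]
    have h1 : Real.exp (2 / 2 ^ 2) ≤ 3 := by
      have h3 : Real.exp (2 / 2 ^ 2) ≤ Real.exp 1 := Real.exp_le_exp.mpr (by norm_num)
      have h4 := Real.exp_one_lt_d9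
      linarith
    have h0 : Real.exp (0 ^ 2 / 2 ^ 2) = 1 := by simp
    rw [h0]
    linarith

/-- Negative answer to Q1.  There is a law `ν` on the real line with mean zero, unit variance and
subgaussian norm at most `2` and with `ν {0} = 1 / 2`; and for every probability law `ν` with
`ν {0} > 0`, every `ε` in `(0, 1)` and all degrees `d(n)` with
`d(n) * log n - n * log (1 / ν {0})` tending to infinity (such as `d(n) = n`), the probability that
the smallest singular value of `m = ⌊(1 - ε) n ^ d(n)⌋` independent simple random tensors whose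
factors have independent coordinates of law `ν` is positive tends to `0`. -/
theorem result :
    (∃ ν : Measure ℝ, Admissible ν 2 ∧ ν {0} = 2⁻¹) ∧
    ∀ (ν : Measure ℝ) [IsProbabilityMeasure ν], 0 < ν {0} → ∀ ε : ℝ, 0 < ε → ε < 1 →
      ∀ d : ℕ → ℕ,
        Tendsto (fun n : ℕ => (d n : ℝ) * Real.log n - n * Real.log (1 / (ν {0}).toReal))
          atTop atTop →
        Tendsto (fun n : ℕ => factorLaw ⌊(1 - ε) * (n : ℝ) ^ d n⌋₊ (d n) n ν
          {x | 0 < sigmaMin (fun i => simpleTensor (x i))}) atTop (𝓝 0) := by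
  refine ⟨⟨lazyLaw, lazy_admissible, lazy_zero⟩, ?_⟩
  intro ν _ hν ε hε0 hε1 d hd
  set q : ℝ := (ν {0}).toReal with hq
  have hq0 : 0 < q := ENNReal.toReal_pos hν.ne' (measure_ne_top _ _)
  have hq1 : q ≤ 1 := by
    rw [hq, ← ENNReal.toReal_one]
    exact ENNReal.toReal_mono ENNReal.one_ne_top prob_le_one
  have hνq : ν {0} = ENNReal.ofReal q := (ENNReal.ofReal_toReal (measure_ne_top _ _)).symm
  -- the exponent
  have hexp : Tendsto (fun n : ℕ => Real.exp (-(⌊(1 - ε) * (n : ℝ) ^ d n⌋₊ * q ^ n)))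
      atTop (𝓝 0) := by
    apply Real.tendsto_exp_neg_atTop_nhds_zero.comp
    have h1 : Tendsto (fun n : ℕ => (1 - ε) * Real.exp ((d n : ℝ) * Real.log n -
        n * Real.log (1 / q)) - 1) atTop atTop := by
      apply tendsto_atTop_add_const_right
      exact (Real.tendsto_exp_atTop.comp hd).const_mul_atTop (by linarith)
    refine tendsto_atTop_mono' _ ?_ h1
    filter_upwards [eventually_ge_atTop 1] with n hn
    have hn0 : (0 : ℝ) < n := by exact_mod_cast hn
    have h2 : Real.exp ((d n : ℝ) * Real.log n - n * Real.log (1 / q)) = (n : ℝ) ^ d n * q ^ n := by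
      rw [one_div, Real.log_inv, mul_neg, sub_neg_eq_add, Real.exp_add, mul_comm (d n : ℝ),
        mul_comm (n : ℝ) (Real.log q), Real.exp_mul, Real.exp_mul, Real.exp_log hn0,
        Real.exp_log hq0, Real.rpow_natCast, Real.rpow_natCast]
    rw [h2]
    have h3 : (1 - ε) * (n : ℝ) ^ d n - 1 ≤ ⌊(1 - ε) * (n : ℝ) ^ d n⌋₊ :=
      (Nat.sub_one_lt_floor _).le
    have h4 : q ^ n ≤ 1 := pow_le_one₀ hq0.le hq1
    have h5 : 0 < q ^ n := by positivity
    calc (1 - ε) * ((n : ℝ) ^ d n * q ^ n) - 1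
        ≤ ((1 - ε) * (n : ℝ) ^ d n - 1) * q ^ n := by nlinarith
      _ ≤ ⌊(1 - ε) * (n : ℝ) ^ d n⌋₊ * q ^ n := mul_le_mul_of_nonneg_right h3 h5.le
  have hexp' : Tendsto (fun n : ℕ => ENNReal.ofReal
      (Real.exp (-(⌊(1 - ε) * (n : ℝ) ^ d n⌋₊ * q ^ n)))) atTop (𝓝 0) := by
    have := ENNReal.tendsto_ofReal hexp
    simpa using this
  refine tendsto_of_tendsto_of_tendsto_of_le_of_le' tendsto_const_nhds hexp' ?_ ?_
  · exact Eventually.of_forall fun n => bot_le
  · have hdpos : ∀ᶠ n : ℕ in atTop, 0 < d n := by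
      filter_upwards [hd.eventually_gt_atTop 0] with n hn
      by_contra h0
      have h0' : d n = 0 := by omega
      rw [h0'] at hn
      have : 0 ≤ Real.log (1 / q) := by
        apply Real.log_nonneg
        rw [le_div_iff₀ hq0]; linarith
      have h3 : (0 : ℝ) ≤ n * Real.log (1 / q) := by positivity
      simp only [Nat.cast_zero, zero_mul, zero_sub] at hn
      linarith
    filter_upwards [hdpos] with n hn
    refine (prob_le hn ν).trans ?_
    rw [hνq, ← ENNReal.ofReal_pow hq0.le, ← ENNReal.ofReal_one,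
      ← ENNReal.ofReal_sub _ (by positivity), ← ENNReal.ofReal_pow]
    · apply ENNReal.ofReal_le_ofReal
      have h1 : 1 - q ^ n ≤ Real.exp (-(q ^ n)) := by
        have := Real.add_one_le_exp (-(q ^ n))
        linarith
      calc (1 - q ^ n) ^ ⌊(1 - ε) * (n : ℝ) ^ d n⌋₊
          ≤ (Real.exp (-(q ^ n))) ^ ⌊(1 - ε) * (n : ℝ) ^ d n⌋₊ := by
            apply pow_le_pow_left₀ _ h1
            have := pow_le_one₀ (n := n) hq0.le hq1
            linarith
        _ = Real.exp (-(⌊(1 - ε) * (n : ℝ) ^ d n⌋₊ * q ^ n)) := by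
            rw [← Real.exp_nat_mul]
            congr 1
            ring
    · have := pow_le_one₀ (n := n) hq0.le hq1
      linarith

end Pool.Agent.Results.MP_2a72d7_pr.AtomAtZero
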